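import Pool.Agent.Q32.SK.Stm

/-!
# Project SK (helper32), jobs DAT and TST
-/

set_option autoImplicit false

namespace Pool.Agent.Q182.SK

open Function Q32.SK

theorem perm_of_range {G M : Type} [Group G] [MulAction G M] {k : ℕ} {b c : Fin k → M}
    (hb : Injective b) (g : G) (h : ∀ i, g • b i ∈ Set.range c) :
    ∃ π : Equiv.Perm (Fin k), ∀ i, g • b i = c (π i) := by
  choose π hπ using h
  have h1 : Injective π := by
    intro i j hij
    apply hb
    apply MulAction.injective g
    show g • b i = g • b j
    rw [← hπ, ← hπ, hij]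
  exact ⟨Equiv.ofBijective π (Finite.injective_iff_bijective.mp h1), fun i => (hπ i).symm⟩

theorem inv_range {G M : Type} [Group G] [MulAction G M] {k : ℕ} {b c : Fin k → M}
    (hb : Injective b) (g : G) (h : ∀ i, g • b i ∈ Set.range c) (i : Fin k) :
    g⁻¹ • c i ∈ Set.range b := by
  obtain ⟨π, hπ⟩ := perm_of_range hb g h
  refine ⟨π.symm i, ?_⟩
  rw [eq_inv_smul_iff, hπ, Equiv.apply_symm_apply]

theorem dat : S_DAT := by
  intro k I ar 𝒞 G M _ _ r good b a hb typ hfull hne
  classical
  have ha : Injective a := hfull.1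
  let S : Subgroup G :=
    { carrier := {g | ∀ i, g • b i ∈ Set.range b}
      one_mem' := fun i => ⟨i, (one_smul G _).symm⟩
      mul_mem' := by
        intro g h hg hh i
        obtain ⟨j, hj⟩ := hh i
        rw [mul_smul, ← hj]
        exact hg j
      inv_mem' := by
        intro g hg i
        exact inv_range hb g hg i }
  have hπ : ∀ s : S, ∃ π : Equiv.Perm (Fin k), ∀ i, (s : G) • b i = b (π i) := fun s =>
    perm_of_range hb (s : G) s.2
  choose π hπ using hπ
  have hpi : ∀ s : S, ∃ g : G, ∀ i, g • a i = a (π s i) := by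
    intro s
    apply hfull.2 (π s)
    have h1 : r.pull (fun i => b (π s i)) = r.pull b := by
      have h2 : (fun i => b (π s i)) = fun i => (s : G) • b i := funext fun i => (hπ s i).symm
      rw [h2]
      have h3 := good.inv (s : G)
      calc r.pull (fun i => (s : G) • b i) = (r.pull (fun x => (s : G) • x)).pull b := rfl
        _ = r.pull b := by rw [h3]
    calc r.pull (fun i => a (π s i)) = (r.pull a).pull (fun i => π s i) := rfl
      _ = (r.pull b).pull (fun i => π s i) := by rw [typ]
      _ = r.pull (fun i => b (π s i)) := rfl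
      _ = r.pull a := by rw [h1, typ]
  choose f hf using hpi
  have huniq : ∀ g g' : G, (∀ i, g • a i = g' • a i) → g = g' := by
    intro g g' h
    have h1 := good.shp (g'⁻¹ * g) a ha fun i => by rw [mul_smul, h, inv_smul_smul]
    exact (inv_mul_eq_one.mp h1).symm
  have huniqb : ∀ g g' : G, (∀ i, g • b i = g' • b i) → g = g' := by
    intro g g' h
    have h1 := good.shp (g'⁻¹ * g) b hb fun i => by rw [mul_smul, h, inv_smul_smul]
    exact (inv_mul_eq_one.mp h1).symm
  have hmul : ∀ s s' : S, ∀ i, π (s * s') i = π s (π s' i) := by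
    intro s s' i
    apply hb
    rw [← hπ, ← hπ, ← hπ, Subgroup.coe_mul, mul_smul]
  let F : S →* G := MonoidHom.mk' f (by
    intro s s'
    apply huniq
    intro i
    rw [hf, mul_smul, hf, hf, hmul])
  have hF : Injective F := by
    intro s s' h
    have h : f s = f s' := h
    apply Subtype.ext
    apply huniqb
    intro i
    rw [hπ, hπ]
    congr 1
    apply ha
    rw [← hf, ← hf, h]
  refine ⟨{ b := b, a := a, binj := hb, ainj := ha, typ := typ, S := S, S' := F.range,
            φ := MonoidHom.ofInjective hF, finS := ?_, prm := ?_, ne := hne, ne' := ?_ },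
    rfl, rfl, fun g hg => hg⟩
  · refine Finite.of_injective π fun s s' h => ?_
    apply Subtype.ext
    apply huniqb
    intro i
    rw [hπ, hπ, h]
  · intro s
    refine ⟨π s, hπ s, fun i => ?_⟩
    exact hf s i
  · intro g hg
    exact hne g⁻¹ fun i => inv_range ha g hg i

theorem tst : S_TST := by
  intro hdat hini hpsy hexf hnon hgen hgrp k I ar 𝒞 A rich b a hb typ hfull hne
  obtain ⟨d, hdb, hda, hdS⟩ := hdat k I ar 𝒞 A.G A.M A.r A.good b a hb typ hfull hne
  subst hdb hda
  obtain ⟨t, h1, h2, h3, h4⟩ := hgen hini hpsy hexf hnon k I ar 𝒞 A.G A.M A.r A.good rich d hdS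
  obtain ⟨h5, h6⟩ := hgrp k I ar 𝒞 A.G A.M A.r A.good d.S d.S' d.φ t h2 h3 h4
  let B : Stg k 𝒞 :=
    { G := Subgroup.closure (Set.range (MulAction.toPermHom A.G A.M) ∪ {t})
      M := A.M
      r := A.r
      good := h6 }
  let e : Ext A B :=
    { φ := (MulAction.toPermHom A.G A.M).codRestrict
        (Subgroup.closure (Set.range (MulAction.toPermHom A.G A.M) ∪ {t}))
        (fun g => Subgroup.subset_closure (Or.inl ⟨g, rfl⟩))
      ι := fun x => x
      inj := fun _ _ h => h
      eqv := fun _ _ => rfl
      str := rfl }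
  exact ⟨B, e, ⟨t, Subgroup.subset_closure (Or.inr rfl)⟩, fun i => h1 i⟩

end Pool.Agent.Q182.SK
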