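import Pool.Agent.Q32.SK.Stm

/-!
# Project SK (helper32), job EXF
-/

set_option autoImplicit false

namespace Pool.Agent.Q182.SK

open Function Q32.SK

theorem exf : S_EXF := by
  intro hN k I ar 𝒞 G M _ _ r good rich d p hp x
  classical
  by_cases hx : ∃ y, (x, y) ∈ p
  · exact ⟨p, subset_rfl, hp, hx⟩
  -- the orbit of `x` avoids the domain
  have hsx : ∀ (s : d.S) (y : M), ((s : G) • x, y) ∉ p := by
    intro s y h
    apply hx
    refine ⟨(d.φ s⁻¹ : G) • y, ?_⟩
    have h1 := hp.eqv s⁻¹ _ _ h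
    have h2 : ((s⁻¹ : d.S) : G) • (s : G) • x = x := by
      rw [← mul_smul]
      have : ((s⁻¹ : d.S) : G) * (s : G) = 1 := by simp
      rw [this, one_smul]
    rw [h2] at h1
    exact h1
  have hfree : ∀ s : d.S, (s : G) • x = x → s = 1 := by
    intro s hs
    by_contra hne
    have h1 : (s : G) ≠ 1 := fun h => hne (Subtype.ext h)
    obtain ⟨π, hπ, -⟩ := d.prm s
    have h2 := good.fre (s : G) (Finset.univ.image d.b)
      (by rw [Finset.card_image_of_injective _ d.binj, Finset.card_univ, Fintype.card_fin])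
      (by
        intro z hz
        obtain ⟨i, -, rfl⟩ := Finset.mem_image.mp hz
        rw [hπ]
        exact Finset.mem_image.mpr ⟨π i, Finset.mem_univ _, rfl⟩) h1 x hs
    obtain ⟨i, -, hi⟩ := Finset.mem_image.mp h2
    exact hx ⟨d.a i, by rw [← hi]; exact hp.ba i⟩
  have hinjx : ∀ s s' : d.S, (s : G) • x = (s' : G) • x → s = s' := by
    intro s s' h
    have h1 : ((s'⁻¹ * s : d.S) : G) • x = x := by
      rw [Subgroup.coe_mul, mul_smul, h, ← mul_smul]
      have : ((s'⁻¹ : d.S) : G) * (s' : G) = 1 := by simp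
      rw [this, one_smul]
    have h2 := hfree _ h1
    exact (inv_mul_eq_one.mp h2).symm
  -- the second coordinates
  set C : Set M := {y | ∃ x', (x', y) ∈ p} with hC
  set β : Ex G M Unit → M := Sum.elim
    (fun c => if h : ∃ x', (x', c) ∈ p then h.choose else x)
    (fun q => if h : q.1 ∈ d.S' then ((d.φ.symm ⟨q.1, h⟩ : d.S) : G) • x else x) with hβ
  have hβo : ∀ (x' c : M), (x', c) ∈ p → β (Ex.old Unit c) = x' := by
    intro x' c h
    have h0 : ∃ x', (x', c) ∈ p := ⟨x', h⟩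
    have h1 : β (Ex.old Unit c) = h0.choose := dif_pos h0
    rw [h1]
    exact hp.inj _ _ _ h0.choose_spec h
  have hβn : ∀ (s : d.S), β (Ex.new M (d.φ s : G) ()) = (s : G) • x := by
    intro s
    have h1 : β (Ex.new M (d.φ s : G) ()) =
        ((d.φ.symm ⟨(d.φ s : G), (d.φ s).2⟩ : d.S) : G) • x := dif_pos (d.φ s).2
    rw [h1]
    congr 2
    exact d.φ.symm_apply_apply s
  -- the elements of `Zs`
  have hZ : ∀ w ∈ Zs d.S' C Unit, (∃ x' c, (x', c) ∈ p ∧ w = Ex.old Unit c) ∨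
      ∃ s : d.S, w = Ex.new M (d.φ s : G) () := by
    rintro w (⟨c, ⟨x', hc⟩, rfl⟩ | ⟨s, hs, j, rfl⟩)
    · exact Or.inl ⟨x', c, hc, rfl⟩
    · refine Or.inr ⟨d.φ.symm ⟨s, hs⟩, ?_⟩
      rw [d.φ.apply_symm_apply]
  have hZn : ∀ s : d.S, Ex.new M (d.φ s : G) () ∈ Zs d.S' C Unit := fun s =>
    Or.inr ⟨_, (d.φ s).2, (), rfl⟩
  have hZo : ∀ x' c, (x', c) ∈ p → Ex.old Unit c ∈ Zs d.S' C Unit := fun x' c h =>
    Or.inl ⟨c, ⟨x', h⟩, rfl⟩
  have hadm : Adm 𝒞 r d.S' C (fun i v => r i (fun l => β (v l))) := by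
    refine ⟨?_, ?_, ?_, ?_, ?_, ?_⟩
    · have := d.finS
      exact Finite.of_equiv _ d.φ.toEquiv
    · have : C = Prod.snd '' p := by
        ext y
        constructor
        · rintro ⟨x', h⟩
          exact ⟨_, h, rfl⟩
        · rintro ⟨q, h, rfl⟩
          exact ⟨q.1, h⟩
      rw [this]
      exact hp.fin.image _
    · rintro s hs c ⟨x', hc⟩
      have h1 := hp.eqv (d.φ.symm ⟨s, hs⟩) x' c hc
      rw [d.φ.apply_symm_apply] at h1
      exact ⟨_, h1⟩
    · refine 𝒞.pull (Zs d.S' C Unit) M (fun w => β w) r ?_ good.cls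
      intro w w' hww
      have hww : β (w : Ex G M Unit) = β (w' : Ex G M Unit) := hww
      apply Subtype.ext
      rcases hZ w w.2 with ⟨x₁, c₁, h1, h2⟩ | ⟨s, hs⟩
      · rcases hZ w' w'.2 with ⟨x₂, c₂, h3, h4⟩ | ⟨s', hs'⟩
        · rw [h2, h4, hβo _ _ h1, hβo _ _ h3] at hww
          subst hww
          rw [h2, h4, hp.fn _ _ _ h1 h3]
        · exfalso
          rw [h2, hs', hβo _ _ h1, hβn] at hww
          rw [hww] at h1
          exact hsx s' _ h1
      · rcases hZ w' w'.2 with ⟨x₂, c₂, h3, h4⟩ | ⟨s', hs'⟩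
        · exfalso
          rw [h4, hs, hβo _ _ h3, hβn] at hww
          rw [← hww] at h3
          exact hsx s _ h3
        · rw [hs, hs', hβn, hβn] at hww
          rw [hs, hs', hinjx _ _ hww]
    · intro s hs i v hv
      have h1 : ∀ l, β (s • v l) = ((d.φ.symm ⟨s, hs⟩ : d.S) : G) • β (v l) := by
        intro l
        rcases hZ (v l) (hv l) with ⟨x₁, c₁, h1, h2⟩ | ⟨t, ht⟩
        · have h3 := hp.eqv (d.φ.symm ⟨s, hs⟩) _ _ h1
          rw [d.φ.apply_symm_apply] at h3
          rw [h2, Ex.smul_old, hβo _ _ h1, hβo _ _ h3]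
        · rw [ht, Ex.smul_new, hβn, ← mul_smul]
          have h3 : s * (d.φ t : G) = (d.φ (d.φ.symm ⟨s, hs⟩ * t) : G) := by
            rw [map_mul, d.φ.apply_symm_apply]
            rfl
          rw [h3, hβn]
          rfl
      show r i (fun l => β (s • v l)) ↔ r i (fun l => β (v l))
      simp_rw [h1]
      exact iff_of_eq (congrFun (congrFun (good.inv ((d.φ.symm ⟨s, hs⟩ : d.S) : G)) i)
        (fun l => β (v l)))
    · intro i v hv
      choose x' hx' using hv
      exact hp.iso i _ _ fun l => by rw [hβo _ _ (hx' l)]; exact hx' l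
  -- the new point
  obtain ⟨y, hy1, hy2, hy3⟩ := rich d.S' C _ hadm
    ((Prod.fst '' p) ∪ (Prod.snd '' p) ∪ {x})
    (((hp.fin.image _).union (hp.fin.image _)).union (Set.finite_singleton x))
  have hyx : ∀ g : G, g • y ≠ x := fun g h => hy2 g (Or.inr h)
  have hyp : ∀ g : G, ∀ q ∈ p, g • y ≠ q.1 ∧ g • y ≠ q.2 := fun g q hq =>
    ⟨fun h => hy2 g (Or.inl (Or.inl ⟨q, hq, h.symm⟩)),
      fun h => hy2 g (Or.inl (Or.inr ⟨q, hq, h.symm⟩))⟩
  have hinjy : ∀ g g' : G, g • y = g' • y → g = g' := by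
    intro g g' h
    have h1 : (g'⁻¹ * g) • y = y := by
      rw [mul_smul, h, inv_smul_smul]
    exact (inv_mul_eq_one.mp (hy1 _ h1)).symm
  refine ⟨p ∪ {q | ∃ s : d.S, q = ((s : G) • x, (d.φ s : G) • y)}, Set.subset_union_left,
    ⟨?_, ?_, ?_, ?_, ?_, ?_, ?_⟩, y, Or.inr ⟨1, by simp⟩⟩
  · refine hp.fin.union ?_
    have := d.finS
    have h1 : {q : M × M | ∃ s : d.S, q = ((s : G) • x, (d.φ s : G) • y)} =
        Set.range fun s : d.S => ((s : G) • x, (d.φ s : G) • y) := by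
      ext q
      exact ⟨fun ⟨s, hs⟩ => ⟨s, hs.symm⟩, fun ⟨s, hs⟩ => ⟨s, hs.symm⟩⟩
    rw [h1]
    exact Set.finite_range _
  · rintro z w w' (h1 | ⟨s, hs⟩) (h2 | ⟨s', hs'⟩)
    · exact hp.fn _ _ _ h1 h2
    · exfalso
      have h3 : z = (s' : G) • x := congrArg Prod.fst hs'
      rw [h3] at h1
      exact hsx _ _ h1
    · exfalso
      have h3 : z = (s : G) • x := congrArg Prod.fst hs
      rw [h3] at h2
      exact hsx _ _ h2
    · have h3 : z = (s : G) • x := congrArg Prod.fst hs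
      have h4 : z = (s' : G) • x := congrArg Prod.fst hs'
      have h5 := hinjx s s' (h3.symm.trans h4)
      have h6 : w = (d.φ s : G) • y := congrArg Prod.snd hs
      have h7 : w' = (d.φ s' : G) • y := congrArg Prod.snd hs'
      rw [h6, h7, h5]
  · rintro z z' w (h1 | ⟨s, hs⟩) (h2 | ⟨s', hs'⟩)
    · exact hp.inj _ _ _ h1 h2
    · exfalso
      have h3 : w = (d.φ s' : G) • y := congrArg Prod.snd hs'
      exact (hyp _ _ h1).2 h3.symm
    · exfalso
      have h3 : w = (d.φ s : G) • y := congrArg Prod.snd hs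
      exact (hyp _ _ h2).2 h3.symm
    · have h3 : w = (d.φ s : G) • y := congrArg Prod.snd hs
      have h4 : w = (d.φ s' : G) • y := congrArg Prod.snd hs'
      have h5 : s = s' := d.φ.injective (Subtype.ext (hinjy _ _ (h3.symm.trans h4)))
      have h6 : z = (s : G) • x := congrArg Prod.fst hs
      have h7 : z' = (s' : G) • x := congrArg Prod.fst hs'
      rw [h6, h7, h5]
  · exact fun i => Or.inl (hp.ba i)
  · rintro s z w (h1 | ⟨t, ht⟩)
    · exact Or.inl (hp.eqv s z w h1)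
    · refine Or.inr ⟨s * t, ?_⟩
      have h3 : z = (t : G) • x := congrArg Prod.fst ht
      have h4 : w = (d.φ t : G) • y := congrArg Prod.snd ht
      rw [h3, h4, map_mul, Subgroup.coe_mul, Subgroup.coe_mul, mul_smul, mul_smul]
  · intro i v v' hv
    have h1 : ∀ l, ∃ z ∈ Zs d.S' C Unit, β z = v l ∧ evy y z = v' l := by
      intro l
      rcases hv l with h2 | ⟨s, hs⟩
      · exact ⟨_, hZo _ _ h2, hβo _ _ h2, rfl⟩
      · refine ⟨_, hZn s, ?_, ?_⟩
        · rw [hβn]
          exact (congrArg Prod.fst hs).symm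
        · exact (congrArg Prod.snd hs).symm
    choose z hz hzβ hze using h1
    have h2 := hy3 i z hz
    simp only [hzβ, hze] at h2
    exact h2
  · intro w hw z hz ht
    exact hp.good w hw z hz fun j => hN G M d.S d.S' d.φ p x y hy1 hyp hyx w hw (z j) (ht j)

end Pool.Agent.Q182.SK
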