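import Pool.Agent.Q32.SK.Stm

/-!
# Project SK (helper32), job GEN
-/

set_option autoImplicit false

namespace Pool.Agent.Q182.SK

open Function Q32.SK

section

variable {G M : Type} [Group G] [MulAction G M]

theorem tr_mono {p p' : Set (M × M)} (h : p ⊆ p') {w : List (G × Bool)} {x y : M}
    (ht : Tr p w x y) : Tr p' w x y := by
  induction ht with
  | nil x => exact Tr.nil x
  | cons l w x y z h1 _ ih =>
    refine Tr.cons _ _ _ _ _ ?_ ih
    rcases h1 with ⟨h1, h2⟩ | ⟨h1, h2⟩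
    · exact Or.inl ⟨h1, h h2⟩
    · exact Or.inr ⟨h1, h h2⟩

theorem tr_iUnion {p : ℕ → Set (M × M)} (hm : Monotone p) {w : List (G × Bool)} {x y : M}
    (ht : Tr (⋃ n, p n) w x y) : ∃ n, Tr (p n) w x y := by
  induction ht with
  | nil x => exact ⟨0, Tr.nil x⟩
  | cons l w x y z h1 _ ih =>
    obtain ⟨n, hn⟩ := ih
    have h3 : ∃ m, Stp (p m) l x y := by
      rcases h1 with ⟨h1, h2⟩ | ⟨h1, h2⟩
      · obtain ⟨m, hm⟩ := Set.mem_iUnion.mp h2
        exact ⟨m, Or.inl ⟨h1, hm⟩⟩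
      · obtain ⟨m, hm⟩ := Set.mem_iUnion.mp h2
        exact ⟨m, Or.inr ⟨h1, hm⟩⟩
    obtain ⟨m, h4⟩ := h3
    refine ⟨max n m, Tr.cons _ _ _ _ _ ?_ (tr_mono (hm (le_max_left n m)) hn)⟩
    rcases h4 with ⟨h1, h2⟩ | ⟨h1, h2⟩
    · exact Or.inl ⟨h1, hm (le_max_right n m) h2⟩
    · exact Or.inr ⟨h1, hm (le_max_right n m) h2⟩

end

theorem gen : S_GEN := by
  intro hini hpsy hexf hnon k I ar 𝒞 G M _ _ _ r good rich d hS
  classical
  have hne : Nonempty M := by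
    have h1 := d.ne 1
    rw [not_forall] at h1
    exact ⟨d.b h1.choose⟩
  obtain ⟨en, hen⟩ := exists_surjective_nat M
  have step : ∀ (p : Set (M × M)) (m : M), PM d p → ∃ p', p ⊆ p' ∧ PM d p' ∧
      (∃ y, (m, y) ∈ p') ∧ ∃ x, (x, m) ∈ p' := by
    intro p m hp
    obtain ⟨p1, h1, h2, y, hy⟩ := hexf hnon k I ar 𝒞 G M r good rich d p hp m
    have h3 := hpsy k I ar G M r d p1 h2
    obtain ⟨p2, h4, h5, x, hx⟩ := hexf hnon k I ar 𝒞 G M r good rich d.symm _ h3 m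
    have h6 : PM d {q : M × M | (q.2, q.1) ∈ p2} := hpsy k I ar G M r d.symm p2 h5
    have h7 : p1 ⊆ {q : M × M | (q.2, q.1) ∈ p2} := fun q hq => h4 hq
    exact ⟨_, h1.trans h7, h6, ⟨y, h7 hy⟩, x, hx⟩
  choose! nx hnx1 hnx2 hnx3 hnx4 using step
  -- the sequence
  let P : ℕ → Set (M × M) := fun n =>
    Nat.rec {q | ∃ i, q = (d.b i, d.a i)} (fun n p => nx p (en n)) n
  have hP0 : P 0 = {q | ∃ i, q = (d.b i, d.a i)} := rfl
  have hPs : ∀ n, P (n + 1) = nx (P n) (en n) := fun n => rfl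
  have hPM : ∀ n, PM d (P n) := by
    intro n
    induction n with
    | zero => exact hini k I ar G M r d hS
    | succ n ih => exact hnx2 _ _ ih
  have hmono : Monotone P := monotone_nat_of_le_succ fun n => hnx1 _ _ (hPM n)
  set U : Set (M × M) := ⋃ n, P n with hU
  have hfn : ∀ x y y', (x, y) ∈ U → (x, y') ∈ U → y = y' := by
    intro x y y' h1 h2
    obtain ⟨n, hn⟩ := Set.mem_iUnion.mp h1
    obtain ⟨m, hm⟩ := Set.mem_iUnion.mp h2
    exact (hPM (max n m)).fn _ _ _ (hmono (le_max_left _ _) hn) (hmono (le_max_right _ _) hm)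
  have hinj : ∀ x x' y, (x, y) ∈ U → (x', y) ∈ U → x = x' := by
    intro x x' y h1 h2
    obtain ⟨n, hn⟩ := Set.mem_iUnion.mp h1
    obtain ⟨m, hm⟩ := Set.mem_iUnion.mp h2
    exact (hPM (max n m)).inj _ _ _ (hmono (le_max_left _ _) hn) (hmono (le_max_right _ _) hm)
  have htot : ∀ x, ∃ y, (x, y) ∈ U := by
    intro x
    obtain ⟨n, rfl⟩ := hen x
    obtain ⟨y, hy⟩ := hnx3 (P n) (en n) (hPM n)
    exact ⟨y, Set.mem_iUnion.mpr ⟨n + 1, hy⟩⟩
  have hsur : ∀ y, ∃ x, (x, y) ∈ U := by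
    intro y
    obtain ⟨n, rfl⟩ := hen y
    obtain ⟨x, hx⟩ := hnx4 (P n) (en n) (hPM n)
    exact ⟨x, Set.mem_iUnion.mpr ⟨n + 1, hx⟩⟩
  choose t ht using htot
  have hbij : Bijective t := by
    constructor
    · intro x x' hxx
      have h1 := ht x
      rw [hxx] at h1
      exact hinj _ _ _ h1 (ht x')
    · intro y
      obtain ⟨x, hx⟩ := hsur y
      exact ⟨x, hfn _ _ _ (ht x) hx⟩
  have hUt : ∀ x y, (x, y) ∈ U ↔ t x = y := by
    intro x y
    constructor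
    · intro h
      exact hfn _ _ _ (ht x) h
    · rintro rfl
      exact ht x
  refine ⟨Equiv.ofBijective t hbij, ?_, ?_, ?_, ?_⟩
  · intro i
    exact (hUt _ _).mp (Set.mem_iUnion.mpr ⟨0, ⟨i, rfl⟩⟩)
  · intro s x
    refine (hUt _ _).mp ?_
    obtain ⟨n, hn⟩ := Set.mem_iUnion.mp (ht x)
    exact Set.mem_iUnion.mpr ⟨n, (hPM n).eqv s _ _ hn⟩
  · funext i v
    have h1 : ∀ l, ∃ n, (v l, t (v l)) ∈ P n := fun l => Set.mem_iUnion.mp (ht (v l))
    choose n hn using h1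
    have h2 : ∀ l, (v l, t (v l)) ∈ P (Finset.univ.sup n) := fun l =>
      hmono (Finset.le_sup (Finset.mem_univ l)) (hn l)
    exact propext ((hPM _).iso i v (fun l => t (v l)) h2).symm
  · intro w hw x hx hT
    have h1 : {q : M × M | (Equiv.ofBijective t hbij) q.1 = q.2} = U := by
      ext ⟨x, y⟩
      exact (hUt x y).symm
    rw [h1] at hT
    have h2 : ∀ j, ∃ n, Tr (P n) w (x j) (x j) := fun j => tr_iUnion hmono (hT j)
    choose n hn using h2
    exact (hPM (Finset.univ.sup n)).good w hw x hx fun j =>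
      tr_mono (hmono (Finset.le_sup (Finset.mem_univ j))) (hn j)

end Pool.Agent.Q182.SK
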