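import Pool.Agent.Q32.SK.Stm

/-!
# Project SK (helper32), job INI
-/

set_option autoImplicit false

namespace Pool.Agent.Q182.SK

open Function Q32.SK

section

variable {G M : Type} [Group G] [MulAction G M]

theorem tr_append (p : Set (M × M)) (u v : List (G × Bool)) (x z : M) :
    Tr p (u ++ v) x z ↔ ∃ y, Tr p u x y ∧ Tr p v y z := by
  induction u generalizing x with
  | nil =>
    constructor
    · intro h
      exact ⟨x, Tr.nil x, h⟩
    · rintro ⟨y, h1, h2⟩
      cases h1
      exact h2
  | cons l u ih =>
    constructor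
    · intro h
      rw [List.cons_append] at h
      cases h with
      | cons _ _ _ y' _ h1 h2 =>
        obtain ⟨y, h3, h4⟩ := (ih y').mp h2
        exact ⟨y, Tr.cons _ _ _ _ _ h1 h3, h4⟩
    · rintro ⟨y, h1, h2⟩
      rw [List.cons_append]
      cases h1 with
      | cons _ _ _ y' _ h3 h4 =>
        exact Tr.cons _ _ _ _ _ h3 ((ih y').mpr ⟨y, h4, h2⟩)

theorem stp_inj {p : Set (M × M)} (fn : ∀ x y y', (x, y) ∈ p → (x, y') ∈ p → y = y')
    (inj : ∀ x x' y, (x, y) ∈ p → (x', y) ∈ p → x = x') {l : G × Bool} {x x' y : M}
    (h : Stp p l x y) (h' : Stp p l x' y) : x = x' := by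
  rcases h with ⟨h1, h2⟩ | ⟨h1, h2⟩
  · rcases h' with ⟨_, h4⟩ | ⟨h3, _⟩
    · exact MulAction.injective l.1 (inj _ _ _ h2 h4)
    · rw [h1] at h3; cases h3
  · rcases h' with ⟨h3, _⟩ | ⟨_, h4⟩
    · rw [h1] at h3; cases h3
    · exact MulAction.injective l.1 (fn _ _ _ h2 h4)

theorem tr_inj {p : Set (M × M)} (fn : ∀ x y y', (x, y) ∈ p → (x, y') ∈ p → y = y')
    (inj : ∀ x x' y, (x, y) ∈ p → (x', y) ∈ p → x = x') {w : List (G × Bool)} {x x' y : M}
    (h : Tr p w x y) (h' : Tr p w x' y) : x = x' := by
  induction h generalizing x' with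
  | nil x =>
    cases h'
    rfl
  | cons l w x z y h1 _ ih =>
    cases h' with
    | cons _ _ _ z' _ h3 h4 =>
      have h5 := ih h4
      subst h5
      exact stp_inj fn inj h1 h3

end

theorem ini : S_INI := by
  intro k I ar G M _ _ r d hS
  set p : Set (M × M) := {q | ∃ i, q = (d.b i, d.a i)} with hp
  have fn : ∀ x y y', (x, y) ∈ p → (x, y') ∈ p → y = y' := by
    rintro x y y' ⟨i, hi⟩ ⟨j, hj⟩
    have h1 : x = d.b i := congrArg Prod.fst hi
    have h2 : x = d.b j := congrArg Prod.fst hj
    have h3 : i = j := d.binj (h1.symm.trans h2)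
    have h4 : y = d.a i := congrArg Prod.snd hi
    have h5 : y' = d.a j := congrArg Prod.snd hj
    rw [h4, h5, h3]
  have inj : ∀ x x' y, (x, y) ∈ p → (x', y) ∈ p → x = x' := by
    rintro x x' y ⟨i, hi⟩ ⟨j, hj⟩
    have h1 : y = d.a i := congrArg Prod.snd hi
    have h2 : y = d.a j := congrArg Prod.snd hj
    have h3 : i = j := d.ainj (h1.symm.trans h2)
    have h4 : x = d.b i := congrArg Prod.fst hi
    have h5 : x' = d.b j := congrArg Prod.fst hj
    rw [h4, h5, h3]
  refine ⟨?_, fn, inj, fun i => ⟨i, rfl⟩, ?_, ?_, ?_⟩
  · have h1 : p = Set.range fun i => (d.b i, d.a i) := by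
      ext q
      constructor
      · rintro ⟨i, hi⟩
        exact ⟨i, hi.symm⟩
      · rintro ⟨i, hi⟩
        exact ⟨i, hi.symm⟩
    rw [h1]
    exact Set.finite_range _
  · rintro s x y ⟨i, hi⟩
    obtain ⟨π, h1, h2⟩ := d.prm s
    have h4 : x = d.b i := congrArg Prod.fst hi
    have h5 : y = d.a i := congrArg Prod.snd hi
    exact ⟨π i, by rw [h4, h5, h1, h2]⟩
  · intro i v v' hv
    choose j hj using hv
    have h1 : v = fun l => d.b (j l) := funext fun l => congrArg Prod.fst (hj l)
    have h2 : v' = fun l => d.a (j l) := funext fun l => congrArg Prod.snd (hj l)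
    have h3 := congrFun (congrFun d.typ i) j
    rw [h1, h2]
    exact iff_of_eq h3
  · intro w hw x hx ht
    -- an injective tuple in the image is everything
    have full : ∀ (c : Fin k → Fin k) (y : Fin k → M) (e : Fin k → M), Injective y →
        (∀ j, y j = e (c j)) → ∀ i, ∃ j, e i = y j := by
      intro c y e hy hc i
      have h1 : Injective c := by
        intro j j' hjj
        apply hy
        rw [hc, hc, hjj]
      obtain ⟨j, hj⟩ := (Finite.injective_iff_surjective.mp h1) i
      exact ⟨j, by rw [hc, hj]⟩
    have key : ∀ (u v : List (G × Bool)) (l l' : G × Bool), w ++ w = u ++ l :: l' :: v →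
        l.2 = true ∧ l'.2 = false := by
      intro u v l l' he
      have h1 : ∀ j, ∃ y, Tr p u (x j) y ∧ Tr p (l :: l' :: v) y (x j) := by
        intro j
        rw [← tr_append, ← he, tr_append]
        exact ⟨x j, ht j, ht j⟩
      choose y hy hy' using h1
      have h2 : ∀ j, ∃ z z', Stp p l (y j) z ∧ Stp p l' z z' := by
        intro j
        have h3 := hy' j
        cases h3 with
        | cons _ _ _ z _ h4 h5 =>
          cases h5 with
          | cons _ _ _ z' _ h6 h7 => exact ⟨z, z', h4, h6⟩
      choose z z' hz hz' using h2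
      have hyi : Injective y := by
        intro j j' hjj
        have h3 := hy j
        rw [hjj] at h3
        exact hx (tr_inj fn inj h3 (hy j'))
      -- `z` is injective
      have hzi : Injective z := by
        intro j j' hjj
        have h3 := hz j
        rw [hjj] at h3
        exact hyi (stp_inj fn inj h3 (hz j'))
      have hbad := hw.2 u v l l' he
      cases hl : l.2 with
      | false =>
        exfalso
        -- the points `z` form the set `b`
        have h3 : ∀ j, ∃ c, z j = d.b c := by
          intro j
          rcases hz j with ⟨h4, _⟩ | ⟨_, h5⟩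
          · rw [hl] at h4; cases h4
          · obtain ⟨c, hc⟩ := h5
            exact ⟨c, congrArg Prod.fst hc⟩
        choose c hc using h3
        have h4 := full c z d.b hzi hc
        cases hl' : l'.2 with
        | false =>
          apply d.ne l'.1
          intro i
          obtain ⟨j, hj⟩ := h4 i
          rcases hz' j with ⟨h5, _⟩ | ⟨_, h6⟩
          · rw [hl'] at h5; cases h5
          · obtain ⟨c', hc'⟩ := h6
            exact ⟨c', by rw [hj]; exact (congrArg Prod.snd hc').symm⟩
        | true =>
          apply hbad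
          refine Or.inr ⟨hl, hl', hS l'.1 fun i => ?_⟩
          obtain ⟨j, hj⟩ := h4 i
          rcases hz' j with ⟨_, h6⟩ | ⟨h5, _⟩
          · obtain ⟨c', hc'⟩ := h6
            exact ⟨c', by rw [hj]; exact (congrArg Prod.fst hc').symm⟩
          · rw [hl'] at h5; cases h5
      | true =>
        refine ⟨rfl, ?_⟩
        have h3 : ∀ j, ∃ c, z j = d.a c := by
          intro j
          rcases hz j with ⟨_, h5⟩ | ⟨h4, _⟩
          · obtain ⟨c, hc⟩ := h5
            exact ⟨c, congrArg Prod.snd hc⟩
          · rw [hl] at h4; cases h4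
        choose c hc using h3
        have h4 := full c z d.a hzi hc
        cases hl' : l'.2 with
        | false => rfl
        | true =>
          exfalso
          apply d.ne' l'.1
          intro i
          obtain ⟨j, hj⟩ := h4 i
          rcases hz' j with ⟨_, h6⟩ | ⟨h5, _⟩
          · obtain ⟨c', hc'⟩ := h6
            exact ⟨c', by rw [hj]; exact (congrArg Prod.fst hc').symm⟩
          · rw [hl'] at h5; cases h5
    -- three letters
    obtain ⟨hne, -⟩ := hw
    cases w with
    | nil => exact hne rfl
    | cons l w =>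
      cases w with
      | nil =>
        have h1 := key [] [] l l rfl
        rw [h1.1] at h1
        exact absurd h1.2 (by simp)
      | cons l' w =>
        have h1 := key [] (w ++ l :: l' :: w) l l' rfl
        have h3 : ∃ l'' v, w ++ l :: l' :: w = l'' :: v := by
          cases w with
          | nil => exact ⟨l, [l'], rfl⟩
          | cons m w => exact ⟨m, _, rfl⟩
        obtain ⟨l'', v, hv⟩ := h3
        have h2 := key [l] v l' l'' (by
          show l :: l' :: (w ++ l :: l' :: w) = _
          rw [hv]
          rfl)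
        rw [h1.2] at h2
        exact absurd h2.1 (by simp)

end Pool.Agent.Q182.SK
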