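import Pool.Agent.Q32.SK.Stm2

/-!
# Project SK (helper32), job MR
-/

set_option autoImplicit false

namespace Pool.Agent.Q182.SK

open Function Q32.SK

/-- the conclusion of MR -/
def Mrc {I : Type} {ar : I → ℕ} (G M : Type) [Group G] [MulAction G M] (r : Str I ar M)
    (C : Set M) (J : Type) (E : Str I ar (C ⊕ J)) (F : Set M) : Prop :=
  ∃ y : J → M, (∀ (j : J) (g : G), g • y j ∉ C ∧ g • y j ∉ F) ∧
    (∀ (j j' : J) (g : G), g • y j = y j' → g = 1 ∧ j = j') ∧
    r.pull (Sum.elim (Subtype.val : C → M) y) = E

theorem mr_all {I : Type} {ar : I → ℕ} (𝒞 : Cls I ar) (G M : Type) [Group G]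
    [MulAction G M] (r : Str I ar M) (rich : Rich 𝒞 G M r) (J : Type) [Finite J] :
    ∀ (C : Set M), C.Finite → ∀ E : Str I ar (C ⊕ J), 𝒞.K (C ⊕ J) E →
      E.pull Sum.inl = r.pull (Subtype.val : C → M) → ∀ F : Set M, F.Finite →
      Mrc G M r C J E F := by
  classical
  induction J using Finite.induction_empty_option with
  | @of_equiv J J' e ih =>
    intro C hC E hE hEr F hF
    let ψ : C ⊕ J → C ⊕ J' := Sum.map id e
    have hψ : Injective ψ := Sum.map_injective.mpr ⟨injective_id, e.injective⟩
    obtain ⟨y, h1, h2, h3⟩ := ih C hC (E.pull ψ) (𝒞.pull _ _ ψ E hψ hE) hEr F hF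
    refine ⟨fun j => y (e.symm j), fun j g => h1 _ g, fun j j' g h => ?_, ?_⟩
    · obtain ⟨h4, h5⟩ := h2 _ _ g h
      exact ⟨h4, e.symm.injective h5⟩
    · funext i v
      have h4 := congrFun (congrFun h3 i) (fun l => Sum.map id e.symm (v l))
      have h5 : (fun l => ψ (Sum.map id e.symm (v l))) = v := by
        funext l
        rcases v l with c | j
        · rfl
        · show Sum.inr (e (e.symm j)) = _
          rw [e.apply_symm_apply]
      have h6 : (E.pull ψ) i (fun l => Sum.map id e.symm (v l)) = E i v := by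
        show E i (fun l => ψ (Sum.map id e.symm (v l))) = _
        rw [h5]
      rw [h6] at h4
      rw [← h4]
      show r i _ = r i _
      congr 1
      funext l
      show Sum.elim _ _ (v l) = Sum.elim _ _ (Sum.map id e.symm (v l))
      rcases v l with c | j <;> rfl
  | h_empty =>
    intro C hC E hE hEr F hF
    refine ⟨fun j => j.elim, fun j => j.elim, fun j => j.elim, ?_⟩
    funext i v
    have h1 : ∀ l, ∃ c, v l = Sum.inl c := by
      intro l
      rcases v l with c | j
      · exact ⟨c, rfl⟩
      · exact j.elim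
    choose u hu using h1
    have h2 : v = fun l => Sum.inl (u l) := funext hu
    subst h2
    exact (congrFun (congrFun hEr i) u).symm
  | @h_option J _ ih =>
    intro C hC E hE hEr F hF
    -- one point
    let θ : Ex G M Unit → C ⊕ Option J := Sum.elim
      (fun c => if h : c ∈ C then Sum.inl ⟨c, h⟩ else Sum.inr none) (fun _ => Sum.inr none)
    have hθo : ∀ c (h : c ∈ C), θ (Ex.old Unit c) = Sum.inl ⟨c, h⟩ := fun c h => dif_pos h
    have hθn : ∀ g : G, θ (Ex.new M g ()) = Sum.inr none := fun g => rfl
    have hadm : Adm 𝒞 r (⊥ : Subgroup G) C (fun i v => E i (fun l => θ (v l))) := by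
      refine ⟨inferInstance, hC, ?_, ?_, ?_, ?_⟩
      · intro s hs c hc
        rw [Subgroup.mem_bot.mp hs, one_smul]
        exact hc
      · refine 𝒞.pull (Zs (⊥ : Subgroup G) C Unit) (C ⊕ Option J) (fun w => θ w) E ?_ hE
        rintro ⟨w, hw⟩ ⟨w', hw'⟩ hww
        replace hww : θ w = θ w' := hww
        apply Subtype.ext
        show w = w'
        rcases hw with ⟨c, hc, rfl⟩ | ⟨s, hs, j, rfl⟩
        · rcases hw' with ⟨c', hc', rfl⟩ | ⟨s', hs', j', rfl⟩
          · rw [hθo c hc, hθo c' hc'] at hww
            have h1 := congrArg Subtype.val (Sum.inl_injective hww)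
            rw [show c = c' from h1]
          · rw [hθo c hc, hθn] at hww
            cases hww
        · rcases hw' with ⟨c', hc', rfl⟩ | ⟨s', hs', j', rfl⟩
          · rw [hθo c' hc', hθn] at hww
            cases hww
          · rw [Subgroup.mem_bot.mp hs, Subgroup.mem_bot.mp hs']
      · intro s hs i v hv
        rw [Subgroup.mem_bot.mp hs]
        simp only [one_smul]
      · intro i v hv
        have h1 : (fun l => θ (Ex.old Unit (v l))) = fun l => Sum.inl ⟨v l, hv l⟩ :=
          funext fun l => hθo _ (hv l)
        rw [h1]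
        exact iff_of_eq (congrFun (congrFun hEr i) (fun l => ⟨v l, hv l⟩))
    obtain ⟨y0, hy1, hy2, hy3⟩ := rich ⊥ C _ hadm (F ∪ C) (hF.union hC)
    have hy0C : y0 ∉ C := fun h => hy2 1 (Or.inr (by rw [one_smul]; exact h))
    -- the rest
    let C1 : Set M := insert y0 C
    let ψ : C1 ⊕ J → C ⊕ Option J := Sum.elim
      (fun c => if h : (c : M) ∈ C then Sum.inl ⟨c, h⟩ else Sum.inr none)
      (fun j => Sum.inr (some j))
    have hψ : Injective ψ := by
      rintro (⟨c, hc⟩ | j) (⟨c', hc'⟩ | j') h
      · by_cases h1 : c ∈ C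
        · have e1 : ψ (Sum.inl ⟨c, hc⟩) = Sum.inl ⟨c, h1⟩ := dif_pos h1
          by_cases h2 : c' ∈ C
          · have e2 : ψ (Sum.inl ⟨c', hc'⟩) = Sum.inl ⟨c', h2⟩ := dif_pos h2
            rw [e1, e2] at h
            have h3 : c = c' := congrArg Subtype.val (Sum.inl_injective h)
            subst h3
            rfl
          · have e2 : ψ (Sum.inl ⟨c', hc'⟩) = Sum.inr none := dif_neg h2
            rw [e1, e2] at h
            cases h
        · have e1 : ψ (Sum.inl ⟨c, hc⟩) = Sum.inr none := dif_neg h1
          by_cases h2 : c' ∈ C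
          · have e2 : ψ (Sum.inl ⟨c', hc'⟩) = Sum.inl ⟨c', h2⟩ := dif_pos h2
            rw [e1, e2] at h
            cases h
          · have h3 : c = y0 := hc.resolve_right h1
            have h4 : c' = y0 := hc'.resolve_right h2
            subst h3 h4
            rfl
      · exfalso
        by_cases h1 : c ∈ C
        · have e1 : ψ (Sum.inl ⟨c, hc⟩) = Sum.inl ⟨c, h1⟩ := dif_pos h1
          rw [e1] at h
          cases h
        · have e1 : ψ (Sum.inl ⟨c, hc⟩) = Sum.inr none := dif_neg h1
          rw [e1] at h
          have h2 := Sum.inr_injective h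
          cases h2
      · exfalso
        by_cases h1 : c' ∈ C
        · have e1 : ψ (Sum.inl ⟨c', hc'⟩) = Sum.inl ⟨c', h1⟩ := dif_pos h1
          rw [e1] at h
          cases h
        · have e1 : ψ (Sum.inl ⟨c', hc'⟩) = Sum.inr none := dif_neg h1
          rw [e1] at h
          have h2 := Sum.inr_injective h
          cases h2
      · have h2 := Option.some_injective _ (Sum.inr_injective h)
        rw [h2]
    have hE1 : (E.pull ψ).pull Sum.inl = r.pull (Subtype.val : C1 → M) := by
      funext i u
      -- lift to `Zs`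
      let z : C1 → Ex G M Unit := fun c => if (c : M) ∈ C then Ex.old Unit (c : M) else Ex.new M 1 ()
      have hz1 : ∀ c, z c ∈ Zs (⊥ : Subgroup G) C Unit := by
        intro c
        by_cases h : (c : M) ∈ C
        · have e1 : z c = Ex.old Unit (c : M) := if_pos h
          rw [e1]
          exact Or.inl ⟨_, h, rfl⟩
        · have e1 : z c = Ex.new M 1 () := if_neg h
          rw [e1]
          exact Or.inr ⟨1, Subgroup.mem_bot.mpr rfl, (), rfl⟩
      have hz2 : ∀ c, evy y0 (z c) = c := by
        intro c
        by_cases h : (c : M) ∈ C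
        · have e1 : z c = Ex.old Unit (c : M) := if_pos h
          rw [e1]
          rfl
        · have e1 : z c = Ex.new M 1 () := if_neg h
          have h3 : (c : M) = y0 := c.2.resolve_right h
          rw [e1, h3]
          exact one_smul G y0
      have hz3 : ∀ c, θ (z c) = ψ (Sum.inl c) := by
        intro c
        by_cases h : (c : M) ∈ C
        · have e1 : z c = Ex.old Unit (c : M) := if_pos h
          have e2 : ψ (Sum.inl c) = Sum.inl ⟨c, h⟩ := dif_pos h
          rw [e1, e2, hθo _ h]
        · have e1 : z c = Ex.new M 1 () := if_neg h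
          have e2 : ψ (Sum.inl c) = Sum.inr none := dif_neg h
          rw [e1, e2, hθn]
      have h1 := hy3 i (fun l => z (u l)) (fun l => hz1 _)
      simp only [hz2, hz3] at h1
      exact propext h1
    obtain ⟨y, h1, h2, h3⟩ := ih C1 (hC.insert y0) (E.pull ψ) (𝒞.pull _ _ ψ E hψ hE) hE1
      (F ∪ C) (hF.union hC)
    refine ⟨fun o => o.elim y0 y, ?_, ?_, ?_⟩
    · intro o g
      cases o with
      | none => exact ⟨fun h => hy2 g (Or.inr h), fun h => hy2 g (Or.inl h)⟩
      | some j => exact ⟨fun h => (h1 j g).1 (Or.inr h), fun h => (h1 j g).2 (Or.inl h)⟩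
    · intro o o' g h
      cases o with
      | none =>
        cases o' with
        | none => exact ⟨hy1 g h, rfl⟩
        | some j =>
          exfalso
          have h4 : g • y0 = y j := h
          apply (h1 j g⁻¹).1
          rw [← h4, inv_smul_smul]
          exact Or.inl rfl
      | some j =>
        cases o' with
        | none =>
          exfalso
          have h4 : g • y j = y0 := h
          apply (h1 j g).1
          rw [h4]
          exact Or.inl rfl
        | some j' =>
          obtain ⟨h5, h6⟩ := h2 j j' g h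
          exact ⟨h5, congrArg some h6⟩
    · funext i v
      have h4 : ∀ w : C ⊕ Option J, ∃ w1 : C1 ⊕ J, ψ w1 = w ∧
          Sum.elim (Subtype.val : C1 → M) y w1 =
            Sum.elim (Subtype.val : C → M) (fun o : Option J => o.elim y0 y) w := by
        rintro (⟨c, hc⟩ | o)
        · exact ⟨Sum.inl ⟨c, Or.inr hc⟩, dif_pos hc, rfl⟩
        · cases o with
          | none => exact ⟨Sum.inl ⟨y0, Or.inl rfl⟩, dif_neg hy0C, rfl⟩
          | some j => exact ⟨Sum.inr j, rfl, rfl⟩
      choose w1 hw1 hw2 using h4
      have h5 := congrFun (congrFun h3 i) (fun l => w1 (v l))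
      have h6 : (E.pull ψ) i (fun l => w1 (v l)) = E i v := by
        show E i (fun l => ψ (w1 (v l))) = _
        simp only [hw1]
      rw [h6] at h5
      rw [← h5]
      show r i _ = r i _
      congr 1
      funext l
      exact (hw2 (v l)).symm

theorem mr : S_MR := by
  intro I ar 𝒞 G M _ _ r rich C hC J _ E hE hEr F hF
  exact mr_all 𝒞 G M r rich J C hC E hE hEr F hF

end Pool.Agent.Q182.SK
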