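import Pool.Agent.Q32.SK.Stm

/-!
# Project SK (helper32), job PSY
-/

set_option autoImplicit false
set_option linter.unusedSectionVars false

namespace Pool.Agent.Q182.SK

open Function Q32.SK

section

variable {G M : Type} [Group G] [MulAction G M]

/-- change all the signs -/
def flip (l : G × Bool) : G × Bool := (l.1, !l.2)

theorem flip_flip (l : G × Bool) : flip (flip l) = l := by
  simp [flip]

theorem map_flip_flip (w : List (G × Bool)) : (w.map flip).map flip = w := by
  rw [List.map_map]
  have h : (flip ∘ flip : G × Bool → G × Bool) = id := funext flip_flip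
  rw [h, List.map_id]

theorem stp_flip (p : Set (M × M)) (l : G × Bool) (x y : M)
    (h : Stp {q : M × M | (q.2, q.1) ∈ p} l x y) : Stp p (flip l) x y := by
  rcases h with ⟨h1, h2⟩ | ⟨h1, h2⟩
  · exact Or.inr ⟨by simp [flip, h1], h2⟩
  · exact Or.inl ⟨by simp [flip, h1], h2⟩

theorem tr_flip (p : Set (M × M)) (w : List (G × Bool)) (x y : M)
    (h : Tr {q : M × M | (q.2, q.1) ∈ p} w x y) : Tr p (w.map flip) x y := by
  induction h with
  | nil x => exact Tr.nil x
  | cons l w x y z h1 _ ih => exact Tr.cons _ _ _ _ _ (stp_flip p l x y h1) ih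

theorem bad_flip (S S' : Subgroup G) (l l' : G × Bool) (h : Bad S S' l l') :
    Bad S' S (flip l) (flip l') := by
  rcases h with ⟨h1, h2, h3⟩ | ⟨h1, h2, h3⟩
  · exact Or.inr ⟨by simp [flip, h1], by simp [flip, h2], h3⟩
  · exact Or.inl ⟨by simp [flip, h1], by simp [flip, h2], h3⟩

theorem cyc_flip (S S' : Subgroup G) (w : List (G × Bool)) (h : Cyc S S' w) :
    Cyc S' S (w.map flip) := by
  obtain ⟨h1, h2⟩ := h
  refine ⟨by simpa using h1, ?_⟩
  intro u v l l' he hb
  apply h2 (u.map flip) (v.map flip) (flip l) (flip l')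
  · have h3 : (w.map flip ++ w.map flip).map flip = (u ++ l :: l' :: v).map flip := by rw [he]
    rw [List.map_append, map_flip_flip] at h3
    rw [h3]
    simp
  · exact bad_flip S' S l l' hb

end

theorem psy : S_PSY := by
  intro k I ar G M _ _ r d p h
  refine ⟨?_, ?_, ?_, ?_, ?_, ?_, ?_⟩
  · exact h.fin.preimage (f := fun q : M × M => (q.2, q.1))
      (fun q _ q' _ hq => Prod.ext (congrArg Prod.snd hq) (congrArg Prod.fst hq))
  · intro x y y' h1 h2
    exact h.inj y y' x h1 h2
  · intro x x' y h1 h2
    exact h.fn y x x' h1 h2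
  · intro i
    exact h.ba i
  · intro s x y hxy
    have h1 := h.eqv (d.φ.symm s) y x hxy
    have h2 : d.φ (d.φ.symm s) = s := d.φ.apply_symm_apply s
    rw [h2] at h1
    exact h1
  · intro i v v' hv
    exact (h.iso i v' v hv).symm
  · intro w hw x hx ht
    exact h.good (w.map flip) (cyc_flip _ _ w hw) x hx fun j => tr_flip p w _ _ (ht j)

end Pool.Agent.Q182.SK
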