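import Pool.Agent.Q32.SK.Stm2

/-!
# Project SK (helper32), job UEX
-/

set_option autoImplicit false

namespace Pool.Agent.Q182.SK

open Function Q32.SK

theorem uex : S_UEX := by
  intro hUNO hMR k I ar 𝒞 hS G M _ _ r good rich d X α hU x
  classical
  by_cases hxX : x ∈ X
  · exact ⟨X, α, subset_rfl, fun _ _ _ => rfl, hU, hxX⟩
  rcases Nat.eq_zero_or_pos k with hk | hk
  · -- the trivial case
    subst hk
    have hG : ∀ g : G, g = 1 := fun g => d.triv g fun i => i.elim0
    have hH : ∀ h : d.H, h = 1 := fun h => Subtype.ext (Subsingleton.elim _ _)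
    refine ⟨insert x X, fun _ z => z, Set.subset_insert _ _, ?_, ?_, Or.inl rfl⟩
    · intro h z hz
      rw [hH h, hU.one z hz]
    · refine ⟨hU.fin.insert x, fun _ _ h => h, fun _ _ => rfl, fun _ _ _ _ => rfl,
        fun i => i.elim0, fun _ i => i.elim0, fun h _ _ _ _ => hH h, fun _ _ _ _ => Iff.rfl, ?_⟩
      intro w hw z _ _
      obtain ⟨hne, hl⟩ := hw
      cases w with
      | nil => exact hne rfl
      | cons l w => exact (hl l List.mem_cons_self).1 (hG l.1)
  -- the action on `X`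
  have hfinH : Finite d.H := inferInstance
  let act : MulAction d.H X :=
    { smul := fun h z => ⟨α h z, hU.mem h z z.2⟩
      one_smul := fun z => Subtype.ext (hU.one z z.2)
      mul_smul := fun h h' z => Subtype.ext (hU.mul h h' z z.2) }
  have hact : ∀ (h : d.H) (z : X), ((h • z : X) : M) = α h z := fun _ _ => rfl
  have : Nonempty X := ⟨⟨d.b ⟨0, hk⟩, hU.bas _⟩⟩
  have : Finite X := hU.fin
  let θ : Ex d.H X Unit → M := Sum.elim (fun z => (z : M)) (fun _ => x)
  have hadm : Adm 𝒞 (r.pull (Subtype.val : X → M)) (⊥ : Subgroup d.H) (Set.univ : Set X)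
      (fun (i : I) (v : Fin (ar i) → Ex d.H X Unit) => r i (fun l => θ (v l))) := by
    refine ⟨inferInstance, Set.finite_univ, fun _ _ _ _ => Set.mem_univ _, ?_, ?_, ?_⟩
    · refine 𝒞.pull (Zs (⊥ : Subgroup d.H) (Set.univ : Set X) Unit) M (fun w => θ w) r ?_ good.cls
      rintro ⟨w, hw⟩ ⟨w', hw'⟩ hww
      replace hww : θ w = θ w' := hww
      apply Subtype.ext
      show w = w'
      rcases hw with ⟨c, hc, rfl⟩ | ⟨s, hs, j, rfl⟩
      · rcases hw' with ⟨c', hc', rfl⟩ | ⟨s', hs', j', rfl⟩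
        · have h1 : (c : M) = c' := hww
          rw [Subtype.ext h1]
        · have h1 : (c : M) = x := hww
          exact absurd (h1 ▸ c.2) hxX
      · rcases hw' with ⟨c', hc', rfl⟩ | ⟨s', hs', j', rfl⟩
        · have h1 : x = (c' : M) := hww
          exact absurd (h1 ▸ c'.2) hxX
        · rw [Subgroup.mem_bot.mp hs, Subgroup.mem_bot.mp hs']
    · intro s hs i v hv
      rw [Subgroup.mem_bot.mp hs]
      simp only [one_smul]
    · intro i v hv
      exact Iff.rfl
  obtain ⟨r', hr1, hr2, hr3, hr4⟩ := hS d.H X (r.pull (Subtype.val : X → M))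
    (𝒞.pull _ _ _ r Subtype.val_injective good.cls)
    (by
      intro h
      funext i v
      exact propext (hU.iso h i (fun l => (v l : M)) fun l => (v l).2)) Unit ⊥ Set.univ _ hadm
  -- new points
  let C : Set M := insert x X
  let J : Type := {h : d.H // h ≠ 1}
  let ψ : C ⊕ J → Ex d.H X Unit := Sum.elim
    (fun c => if h : (c : M) ∈ X then Ex.old Unit ⟨c, h⟩ else Ex.new X 1 ())
    (fun j => Ex.new X (j : d.H) ())
  have hψo : ∀ (c : C) (h : (c : M) ∈ X), ψ (Sum.inl c) = Ex.old Unit ⟨c, h⟩ := fun c h => dif_pos h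
  have hψx : ∀ (c : C) (_ : (c : M) ∉ X), ψ (Sum.inl c) = Ex.new X 1 () := fun c h => dif_neg h
  have hψn : ∀ j : J, ψ (Sum.inr j) = Ex.new X (j : d.H) () := fun j => rfl
  have hψ : Injective ψ := by
    rintro (c | j) (c' | j') h
    · by_cases h1 : (c : M) ∈ X
      · by_cases h2 : (c' : M) ∈ X
        · rw [hψo c h1, hψo c' h2] at h
          have h3 := congrArg Subtype.val (Ex.old_inj h)
          rw [Subtype.ext (show (c : M) = c' from h3)]
        · rw [hψo c h1, hψx c' h2] at h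
          exact (Ex.old_ne_new h).elim
      · by_cases h2 : (c' : M) ∈ X
        · rw [hψx c h1, hψo c' h2] at h
          exact (Ex.old_ne_new h.symm).elim
        · have h3 : (c : M) = x := c.2.resolve_right h1
          have h4 : (c' : M) = x := c'.2.resolve_right h2
          rw [Subtype.ext (show (c : M) = c' from h3.trans h4.symm)]
    · exfalso
      by_cases h1 : (c : M) ∈ X
      · rw [hψo c h1, hψn] at h
        exact Ex.old_ne_new h
      · rw [hψx c h1, hψn] at h
        exact j'.2 (Ex.new_inj h).1.symm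
    · exfalso
      by_cases h1 : (c' : M) ∈ X
      · rw [hψo c' h1, hψn] at h
        exact Ex.old_ne_new h.symm
      · rw [hψx c' h1, hψn] at h
        exact j.2 (Ex.new_inj h).1
    · rw [hψn, hψn] at h
      rw [Subtype.ext (Ex.new_inj h).1]
  have hψθ : ∀ c : C, θ (ψ (Sum.inl c)) = c := by
    intro c
    by_cases h1 : (c : M) ∈ X
    · rw [hψo c h1]
      rfl
    · rw [hψx c h1]
      exact (c.2.resolve_right h1).symm
  have hψZ : ∀ c : C, ψ (Sum.inl c) ∈ Zs (⊥ : Subgroup d.H) (Set.univ : Set X) Unit := by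
    intro c
    by_cases h1 : (c : M) ∈ X
    · rw [hψo c h1]
      exact Or.inl ⟨_, Set.mem_univ _, rfl⟩
    · rw [hψx c h1]
      exact Or.inr ⟨1, Subgroup.mem_bot.mpr rfl, (), rfl⟩
  obtain ⟨y₀, hy1, hy2, hy3⟩ := hMR I ar 𝒞 G M r rich C (hU.fin.insert x) J (r'.pull ψ)
    (𝒞.pull _ _ ψ r' hψ hr1)
    (by
      funext i u
      have h1 := hr4 i (fun l => ψ (Sum.inl (u l))) (fun l => hψZ _)
      simp only [hψθ] at h1
      exact propext h1) ∅ Set.finite_empty
  let y : d.H → M := fun h => if h1 : h = 1 then x else y₀ ⟨h, h1⟩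
  have hy1' : y 1 = x := dif_pos rfl
  have hyn : ∀ (h : d.H) (h1 : h ≠ 1), y h = y₀ ⟨h, h1⟩ := fun h h1 => dif_neg h1
  have hfresh : ∀ (h : d.H) (g : G), h ≠ 1 → g • y h ∈ X ∪ Set.range y → g = 1 := by
    rintro h g h1 (h2 | ⟨h', h2⟩)
    · rw [hyn h h1] at h2
      exact absurd (Or.inr h2) (hy1 _ g).1
    · rw [hyn h h1] at h2
      by_cases h3 : h' = 1
      · rw [h3, hy1'] at h2
        exact absurd (Or.inl h2.symm) (hy1 _ g).1
      · rw [hyn h' h3] at h2
        exact (hy2 _ _ g h2.symm).1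
  have hyX : ∀ h, y h ∉ X := by
    intro h
    by_cases h1 : h = 1
    · rw [h1, hy1']
      exact hxX
    · rw [hyn h h1]
      intro h2
      have h3 := (hy1 ⟨h, h1⟩ 1).1
      rw [one_smul] at h3
      exact h3 (Or.inr h2)
  have hyinj : Injective y := by
    intro h h' hh
    by_cases h1 : h = 1
    · by_cases h2 : h' = 1
      · rw [h1, h2]
      · exfalso
        rw [h1, hy1', hyn h' h2] at hh
        have h3 := (hy1 ⟨h', h2⟩ 1).1
        rw [one_smul] at h3
        exact h3 (Or.inl hh.symm)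
    · by_cases h2 : h' = 1
      · exfalso
        rw [h2, hy1', hyn h h1] at hh
        have h3 := (hy1 ⟨h, h1⟩ 1).1
        rw [one_smul] at h3
        exact h3 (Or.inl hh)
      · rw [hyn h h1, hyn h' h2] at hh
        have h3 := (hy2 ⟨h, h1⟩ ⟨h', h2⟩ 1 (by rw [one_smul]; exact hh)).2
        exact congrArg Subtype.val h3
  let α' : d.H → M → M := fun h z =>
    if z ∈ X then α h z else if h1 : ∃ h', y h' = z then y (h * h1.choose) else z
  have hαX : ∀ h, ∀ z ∈ X, α' h z = α h z := fun h z hz => if_pos hz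
  have hαy : ∀ h h', α' h (y h') = y (h * h') := by
    intro h h'
    have h1 : ∃ h'', y h'' = y h' := ⟨h', rfl⟩
    have h2 : α' h (y h') = y (h * h1.choose) := by
      show (if y h' ∈ X then _ else _) = _
      rw [if_neg (hyX h'), dif_pos h1]
    rw [h2, hyinj h1.choose_spec]
  -- the isomorphism
  let Φ : Ex d.H X Unit → M := Sum.elim (fun z => (z : M)) (fun q => y q.1)
  have hΦψ : ∀ c : C ⊕ J, Sum.elim (Subtype.val : C → M) y₀ c = Φ (ψ c) := by
    rintro (c | j)
    · by_cases h1 : (c : M) ∈ X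
      · rw [hψo c h1]
        rfl
      · rw [hψx c h1]
        show (c : M) = y 1
        rw [hy1']
        exact c.2.resolve_right h1
    · show y₀ j = y j
      exact (hyn _ j.2).symm
  have hψs : ∀ w : Ex d.H X Unit, ∃ c, ψ c = w := by
    rintro (z | ⟨h, j⟩)
    · exact ⟨Sum.inl ⟨z, Or.inr z.2⟩, hψo _ z.2⟩
    · by_cases h1 : h = 1
      · subst h1
        exact ⟨Sum.inl ⟨x, Or.inl rfl⟩, hψx _ hxX⟩
      · exact ⟨Sum.inr ⟨h, h1⟩, rfl⟩
  have hiso : ∀ (i : I) (u : Fin (ar i) → Ex d.H X Unit), r' i u ↔ r i (fun l => Φ (u l)) := by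
    intro i u
    choose c hc using fun l => hψs (u l)
    have h1 := congrFun (congrFun hy3 i) c
    have h2 : r i (fun l => Sum.elim (Subtype.val : C → M) y₀ (c l)) =
        r' i (fun l => ψ (c l)) := h1
    simp only [hΦψ, hc] at h2
    exact (iff_of_eq h2).symm
  have hΦs : ∀ z ∈ X ∪ Set.range y, ∃ u, Φ u = z ∧ ∀ h, Φ (h • u) = α' h z := by
    rintro z (hz | ⟨h', rfl⟩)
    · exact ⟨Ex.old Unit ⟨z, hz⟩, rfl, fun h => (hαX h z hz).symm⟩
    · exact ⟨Ex.new X h' (), rfl, fun h => (hαy h h').symm⟩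
  refine ⟨X ∪ Set.range y, α', Set.subset_union_left, hαX, ⟨?_, ?_, ?_, ?_, ?_, ?_, ?_, ?_, ?_⟩,
    Or.inr ⟨1, hy1'⟩⟩
  · exact hU.fin.union (Set.finite_range y)
  · rintro h z (hz | ⟨h', rfl⟩)
    · rw [hαX h z hz]
      exact Or.inl (hU.mem h z hz)
    · rw [hαy]
      exact Or.inr ⟨_, rfl⟩
  · rintro z (hz | ⟨h', rfl⟩)
    · rw [hαX 1 z hz, hU.one z hz]
    · rw [hαy, one_mul]
  · rintro h h' z (hz | ⟨h'', rfl⟩)
    · rw [hαX _ z hz, hαX _ z hz, hαX _ _ (hU.mem h' z hz), hU.mul h h' z hz]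
    · rw [hαy, hαy, hαy, mul_assoc]
  · exact fun i => Or.inl (hU.bas i)
  · intro h i
    rw [hαX h _ (hU.bas i), hU.bac]
  · rintro h z (hz | ⟨h', rfl⟩) hzb hh
    · rw [hαX h z hz] at hh
      exact hU.fre h z hz hzb hh
    · rw [hαy] at hh
      exact mul_eq_right.mp (hyinj hh)
  · intro h i v hv
    choose u hu hu' using fun l => hΦs (v l) (hv l)
    have h1 := hiso i u
    have h2 := hiso i (fun l => h • u l)
    have h3 := iff_of_eq (congrFun (congrFun (hr2 h) i) u)
    simp only [hu] at h1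
    simp only [hu'] at h2
    exact h2.symm.trans (h3.trans h1)
  · intro w hw z hz ht
    exact hU.good w hw z hz fun j =>
      hUNO G M d.H X α α' y hU.mem hαX hαy hfresh w hw (z j) (ht j)

end Pool.Agent.Q182.SK
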