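import Pool.Agent.Q32.SK.Stm2

/-!
# Project SK (helper32), jobs UGE and UST
-/

set_option autoImplicit false

namespace Pool.Agent.Q182.SK

open Function Q32.SK

theorem uge : S_UGE := by
  intro hUIN hUNO hMR hUEX k I ar 𝒞 hS G M _ _ _ r good rich d
  classical
  by_cases hne : Nonempty M
  swap
  · have he : IsEmpty M := not_nonempty_iff.mp hne
    refine ⟨1, fun h i => (he.false (d.b i)).elim, fun h x => (he.false x).elim, fun h => rfl, ?_⟩
    intro w hw x _ _
    obtain ⟨hne, hl⟩ := hw
    cases w with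
    | nil => exact hne rfl
    | cons l w =>
      exact (hl l List.mem_cons_self).1 (d.triv l.1 fun i => (he.false (d.b i)).elim)
  obtain ⟨en, hen⟩ := exists_surjective_nat M
  -- the sequence
  have step : ∀ (q : Set M × (d.H → M → M)) (x : M), UPM d q.1 q.2 →
      ∃ q' : Set M × (d.H → M → M), UPM d q'.1 q'.2 ∧ q.1 ⊆ q'.1 ∧
        (∀ h, ∀ z ∈ q.1, q'.2 h z = q.2 h z) ∧ x ∈ q'.1 := by
    intro q x hq
    obtain ⟨X', α', h1, h2, h3, h4⟩ :=
      hUEX hUNO hMR k I ar 𝒞 hS G M r good rich d q.1 q.2 hq x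
    exact ⟨(X', α'), h3, h1, h2, h4⟩
  choose! nx hnx1 hnx2 hnx3 hnx4 using step
  obtain ⟨α₀, hα₀⟩ := hUIN k I ar G M r d
  let P : ℕ → Set M × (d.H → M → M) := fun n =>
    Nat.rec (Set.range d.b, α₀) (fun n p => nx p (en n)) n
  have hPM : ∀ n, UPM d (P n).1 (P n).2 := by
    intro n
    induction n with
    | zero => exact hα₀
    | succ n ih => exact hnx1 _ _ ih
  have hP1 : ∀ n, (P n).1 ⊆ (P (n + 1)).1 := fun n => hnx2 (P n) (en n) (hPM n)
  have hP2 : ∀ n h, ∀ z ∈ (P n).1, (P (n + 1)).2 h z = (P n).2 h z := fun n =>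
    hnx3 (P n) (en n) (hPM n)
  have hP3 : ∀ n, en n ∈ (P (n + 1)).1 := fun n => hnx4 (P n) (en n) (hPM n)
  have hmono : ∀ n m, n ≤ m → (P n).1 ⊆ (P m).1 ∧ ∀ h, ∀ z ∈ (P n).1,
      (P m).2 h z = (P n).2 h z := by
    intro n m hnm
    induction m, hnm using Nat.le_induction with
    | base => exact ⟨subset_rfl, fun _ _ _ => rfl⟩
    | succ m _ ih =>
      refine ⟨ih.1.trans (hP1 m), fun h z hz => ?_⟩
      rw [hP2 m h z (ih.1 hz), ih.2 h z hz]
  have hall : ∀ x, ∃ n, x ∈ (P n).1 := by
    intro x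
    obtain ⟨n, rfl⟩ := hen x
    exact ⟨n + 1, hP3 n⟩
  choose N hN using hall
  let α : d.H → M → M := fun h x => (P (N x)).2 h x
  have hα : ∀ n h, ∀ x ∈ (P n).1, α h x = (P n).2 h x := by
    intro n h x hx
    have h1 := (hmono (N x) (max (N x) n) (le_max_left _ _)).2 h x (hN x)
    have h2 := (hmono n (max (N x) n) (le_max_right _ _)).2 h x hx
    exact h1.symm.trans h2
  let act : MulAction d.H M :=
    { smul := α
      one_smul := fun x => (hPM (N x)).one x (hN x)
      mul_smul := fun h h' x => by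
        show α (h * h') x = α h (α h' x)
        have h1 := (hPM (N x)).mem h' x (hN x)
        rw [hα (N x) (h * h') x (hN x), hα (N x) h' x (hN x), hα (N x) h _ h1,
          (hPM (N x)).mul h h' x (hN x)] }
  refine ⟨@MulAction.toPermHom d.H M _ act, ?_, ?_, ?_, ?_⟩
  · intro h i
    show α h (d.b i) = _
    rw [hα 0 h _ ⟨i, rfl⟩]
    exact (hPM 0).bac h i
  · intro h x hx hh
    exact (hPM (N x)).fre h x (hN x) hx hh
  · intro h
    funext i v
    have h1 : ∀ l, v l ∈ (P (Finset.univ.sup fun l => N (v l))).1 := fun l =>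
      (hmono _ _ (Finset.le_sup (f := fun l => N (v l)) (Finset.mem_univ l))).1 (hN (v l))
    have h2 := (hPM _).iso h i v h1
    have h3 : (fun l => α h (v l)) =
        fun l => (P (Finset.univ.sup fun l => N (v l))).2 h (v l) :=
      funext fun l => hα _ h _ (h1 l)
    rw [← h3] at h2
    exact propext h2
  · intro w hw x hx ht
    have key : ∀ (w : List (G × d.H)) (x z : M), UTr Set.univ α w x z →
        ∃ n, ∀ m, n ≤ m → UTr (P m).1 (P m).2 w x z := by
      intro w x z h
      induction h with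
      | nil x => exact ⟨0, fun m _ => UTr.nil x⟩
      | cons l w x z h1 _ ih =>
        obtain ⟨n, hn⟩ := ih
        refine ⟨max n (N (l.1 • x)), fun m hm => ?_⟩
        have h3 : l.1 • x ∈ (P m).1 :=
          (hmono _ m ((le_max_right _ _).trans hm)).1 (hN (l.1 • x))
        refine UTr.cons _ _ _ _ h3 ?_
        rw [← hα m l.2 _ h3]
        exact hn m ((le_max_left _ _).trans hm)
    choose n hn using fun j => key w (x j) (x j) (ht j)
    exact (hPM (Finset.univ.sup n)).good w hw x hx fun j =>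
      hn j _ (Finset.le_sup (Finset.mem_univ j))

theorem ust : S_UST := by
  intro hUIN hUNO hMR hUEX hUGE hUGR k I ar 𝒞 hS A rich b hb htriv hHC
  let H : Subgroup (Equiv.Perm (Fin k)) :=
    { carrier := {π | A.r.pull (fun i => b (π i)) = A.r.pull b}
      one_mem' := rfl
      mul_mem' := by
        intro π σ hπ hσ
        have hπ : A.r.pull (fun i => b (π i)) = A.r.pull b := hπ
        have hσ : A.r.pull (fun i => b (σ i)) = A.r.pull b := hσ
        show A.r.pull (fun i => b (π (σ i))) = A.r.pull b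
        calc A.r.pull (fun i => b (π (σ i))) = (A.r.pull (fun i => b (π i))).pull (fun i => σ i) :=
              rfl
          _ = (A.r.pull b).pull (fun i => σ i) := by rw [hπ]
          _ = A.r.pull (fun i => b (σ i)) := rfl
          _ = _ := hσ
      inv_mem' := by
        intro π hπ
        have hπ : A.r.pull (fun i => b (π i)) = A.r.pull b := hπ
        show A.r.pull (fun i => b (π⁻¹ i)) = A.r.pull b
        calc A.r.pull (fun i => b (π⁻¹ i)) = (A.r.pull b).pull (fun i => π⁻¹ i) := rfl
          _ = (A.r.pull (fun i => b (π i))).pull (fun i => π⁻¹ i) := by rw [hπ]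
          _ = A.r.pull (fun i => b (π (π⁻¹ i))) := rfl
          _ = _ := by
            congr 1
            funext i
            show b (π (π.symm i)) = b i
            rw [Equiv.apply_symm_apply] }
  let d : UDat k A.G A.M A.r :=
    { b := b, binj := hb, H := H, typ := fun h hh => hh, triv := htriv }
  obtain ⟨α, h1, h2, h3, h4⟩ := hUGE hUIN hUNO hMR hUEX k I ar 𝒞 hS A.G A.M A.r A.good rich d
  obtain ⟨h5, h6⟩ := hUGR k I ar 𝒞 A.G A.M A.r A.good d (hHC H) α h1 h2 h3 h4
  let B : Stg k 𝒞 :=
    { G := Subgroup.closure (Set.range (MulAction.toPermHom A.G A.M) ∪ Set.range α)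
      M := A.M
      r := A.r
      good := h6 }
  let e : Ext A B :=
    { φ := (MulAction.toPermHom A.G A.M).codRestrict
        (Subgroup.closure (Set.range (MulAction.toPermHom A.G A.M) ∪ Set.range α))
        (fun g => Subgroup.subset_closure (Or.inl ⟨g, rfl⟩))
      ι := fun x => x
      inj := fun _ _ h => h
      eqv := fun _ _ => rfl
      str := rfl }
  refine ⟨B, e, hb, fun π hπ => ?_⟩
  exact ⟨⟨α ⟨π, hπ⟩, Subgroup.subset_closure (Or.inr ⟨_, rfl⟩)⟩, fun i => h1 ⟨π, hπ⟩ i⟩

end Pool.Agent.Q182.SK
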