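import Pool.Agent.Q32.SK.Stm2

/-!
# Project SK (helper32), jobs SEB, HCA, UNO, UIN
-/

set_option autoImplicit false

namespace Pool.Agent.Q182.SK

open Function Q32.SK

theorem seb : S_SEB := by
  intro k I ar 𝒞 h G M _ _ _ _ _ r good J _ S C D adm
  exact h G M r good.cls good.inv J S C D adm

theorem hca : S_HCA := by
  constructor
  · intro H h _ hne O _ _ x hx
    exfalso
    have h1 : ∀ h : Equiv.Perm (Fin 2), h ≠ 1 → ∀ x, h x ≠ x := by decide
    exact h1 h hne x hx
  · intro H h _ hne O hO hq x hx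
    obtain ⟨q, hq⟩ := hq
    have h1 : ∀ h : Equiv.Perm (Fin 3), h ≠ 1 → ∀ x, h x = x → h * h = 1 ∧
        ∀ O : Finset (Fin 3), (∀ i ∈ O, h i ∈ O) → O.card % 2 = 1 → x ∈ O := by decide
    obtain ⟨h2, h3⟩ := h1 h hne x hx
    have h4 : orderOf h = 2 := orderOf_eq_prime (by rw [sq, h2]) hne
    rw [h4] at hq
    exact h3 O hO (by omega)

section

variable {G M H : Type} [Group G] [MulAction G M] [Group H]

theorem utr_end {X : Set M} {α : H → M → M} (hm : ∀ h, ∀ x ∈ X, α h x ∈ X)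
    {w : List (G × H)} {x z : M} (h : UTr X α w x z) (hw : w ≠ []) : z ∈ X := by
  induction h with
  | nil x => exact absurd rfl hw
  | cons l w x z h1 h2 ih =>
    cases w with
    | nil =>
      cases h2
      exact hm _ _ h1
    | cons l' w => exact ih (by simp)

theorem uno_aux {X : Set M} {α α' : H → M → M} {y : H → M} (hX : ∀ h, ∀ x ∈ X, α h x ∈ X)
    (hα : ∀ h, ∀ x ∈ X, α' h x = α h x) (hy : ∀ h h', α' h (y h') = y (h * h'))
    (hf : ∀ (h : H) (g : G), h ≠ 1 → g • y h ∈ X ∪ Set.range y → g = 1) {w : List (G × H)}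
    {x z : M} (h : UTr (X ∪ Set.range y) α' w x z) (hw : ∀ l ∈ w, l.1 ≠ 1 ∧ l.2 ≠ 1)
    (hx : x ∈ X ∪ Set.range y) (hz : ∃ g : G, g ≠ 1 ∧ g • z ∈ X ∪ Set.range y) :
    UTr X α w x z := by
  induction h with
  | nil x => exact UTr.nil x
  | cons l w x z h1 h2 ih =>
    have hl := hw l List.mem_cons_self
    have hw' : ∀ l ∈ w, l.1 ≠ 1 ∧ l.2 ≠ 1 := fun l hl => hw l (List.mem_cons_of_mem _ hl)
    -- the next point
    have hx1 : α' l.2 (l.1 • x) ∈ X ∪ Set.range y := by
      rcases h1 with h3 | ⟨h', h3⟩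
      · exact Or.inl (by rw [hα _ _ h3]; exact hX _ _ h3)
      · exact Or.inr ⟨l.2 * h', by rw [← h3, hy]⟩
    have hn : ∃ g : G, g ≠ 1 ∧ g • α' l.2 (l.1 • x) ∈ X ∪ Set.range y := by
      cases h2 with
      | nil _ => exact hz
      | cons l' w' _ _ h4 _ => exact ⟨l'.1, (hw' l' List.mem_cons_self).1, h4⟩
    have hold : l.1 • x ∈ X := by
      rcases h1 with h3 | ⟨h', h3⟩
      · exact h3
      · exfalso
        by_cases hh : h' = 1
        · subst hh
          rw [← h3, hy, mul_one] at hn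
          obtain ⟨g, hg1, hg2⟩ := hn
          exact hg1 (hf _ _ hl.2 hg2)
        · have h5 : l.1⁻¹ • y h' ∈ X ∪ Set.range y := by
            rw [h3, inv_smul_smul]
            exact hx
          exact hl.1 (inv_eq_one.mp (hf _ _ hh h5))
    refine UTr.cons _ _ _ _ hold ?_
    rw [← hα _ _ hold]
    exact ih hw' hx1 hz

end

theorem uno : S_UNO := by
  intro G M H _ _ _ X α α' y hX hα hy hf w hw z h
  have hm : ∀ h, ∀ x ∈ X ∪ Set.range y, α' h x ∈ X ∪ Set.range y := by
    rintro h x (h3 | ⟨h', h3⟩)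
    · exact Or.inl (by rw [hα _ _ h3]; exact hX _ _ h3)
    · exact Or.inr ⟨h * h', by rw [← h3, hy]⟩
  have h1 := utr_end hm h hw.1
  have h2 : ∃ g : G, g ≠ 1 ∧ g • z ∈ X ∪ Set.range y := by
    cases h with
    | nil _ => exact absurd rfl hw.1
    | cons l w' _ _ h4 _ => exact ⟨l.1, (hw.2 l List.mem_cons_self).1, h4⟩
  exact uno_aux hX hα hy hf h hw.2 h1 h2

theorem uin : S_UIN := by
  intro k I ar G M _ _ r d
  classical
  let α : d.H → M → M := fun h m => if hm : ∃ i, d.b i = m then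
    d.b ((h : Equiv.Perm (Fin k)) hm.choose) else m
  have hα : ∀ (h : d.H) (i : Fin k), α h (d.b i) = d.b ((h : Equiv.Perm (Fin k)) i) := by
    intro h i
    have hm : ∃ j, d.b j = d.b i := ⟨i, rfl⟩
    have h1 : α h (d.b i) = d.b ((h : Equiv.Perm (Fin k)) hm.choose) := dif_pos hm
    rw [h1, d.binj hm.choose_spec]
  have hmem : ∀ h : d.H, ∀ x ∈ Set.range d.b, α h x ∈ Set.range d.b := by
    rintro h x ⟨i, rfl⟩
    exact ⟨_, (hα h i).symm⟩
  refine ⟨α, ⟨Set.finite_range _, hmem, ?_, ?_, fun i => ⟨i, rfl⟩, hα, ?_, ?_, ?_⟩⟩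
  · rintro x ⟨i, rfl⟩
    rw [hα]
    rfl
  · rintro h h' x ⟨i, rfl⟩
    rw [hα, hα, hα]
    rfl
  · intro h x hx hx'
    exact absurd hx hx'
  · intro h i v hv
    choose u hu using hv
    have h1 : v = fun l => d.b (u l) := funext fun l => (hu l).symm
    subst h1
    have h2 := congrFun (congrFun (d.typ (h : Equiv.Perm (Fin k)) h.2) i) u
    have h3 : (fun l => α h (d.b (u l))) = fun l => d.b ((h : Equiv.Perm (Fin k)) (u l)) :=
      funext fun l => hα h (u l)
    rw [h3]
    exact iff_of_eq h2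
  · intro w hw x hx ht
    obtain ⟨hne, hl⟩ := hw
    cases w with
    | nil => exact hne rfl
    | cons l w =>
      apply (hl l List.mem_cons_self).1
      apply d.triv
      have h1 : ∀ j, ∃ i, d.b i = x j := fun j => utr_end hmem (ht j) (by simp)
      choose σ hσ using h1
      have h2 : Injective σ := by
        intro j j' hjj
        apply hx
        rw [← hσ, ← hσ, hjj]
      intro i
      obtain ⟨j, hj⟩ := (Finite.injective_iff_surjective.mp h2) i
      rw [← hj, hσ]
      cases ht j with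
      | cons _ _ _ _ h4 _ => exact h4

end Pool.Agent.Q182.SK
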